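import Mathlib

/-!
# The unit-distance graph of `ℓ_1^3` can be coloured with 14 colours

After scaling by `3` the points of `ℝ^3` are attached to points of the body-centred cubic lattice
(integer vectors with coordinates of equal parity) at `ℓ_1`-distance at most `3/2`, with a rule for
the ties, and the lattice is coloured by a homomorphism to the cyclic group of order `14` whose
kernel has minimal `ℓ_1`-norm `6`.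
-/

set_option autoImplicit false

namespace Pool.Agent.Results.MP_4e279d_co.FourteenColours

/-- at least two of the three numbers are positive -/
def TwoPos (r₁ r₂ r₃ : ℝ) : Prop := (0 < r₁ ∧ 0 < r₂) ∨ (0 < r₁ ∧ 0 < r₃) ∨ (0 < r₂ ∧ 0 < r₃)

theorem coord (t : ℝ) : ∃ (e : ℤ) (r : ℝ), t = 2 * e + r ∧ -1 < r ∧ r ≤ 1 := by
  refine ⟨⌈(t - 1) / 2⌉, t - 2 * (⌈(t - 1) / 2⌉ : ℤ), by ring, ?_, ?_⟩
  · have := Int.ceil_lt_add_one ((t - 1) / 2)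
    linarith
  · have := Int.le_ceil ((t - 1) / 2)
    linarith

/-- passing from the even to the odd neighbour in one coordinate -/
theorem coord' (e : ℤ) (r : ℝ) (h1 : -1 < r) (h2 : r ≤ 1) : ∃ (z : ℤ) (r' : ℝ),
    (2 * e + r : ℝ) = 2 * z + 1 + r' ∧ |r'| = 1 - |r| ∧ (r ≤ 0 → 0 < r') := by
  rcases lt_or_ge 0 r with h | h
  · refine ⟨e, r - 1, by ring, ?_, fun h' => absurd h (not_lt.2 h')⟩
    rw [abs_of_pos h, abs_of_nonpos (by linarith)]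
    ring
  · refine ⟨e - 1, r + 1, by push_cast; ring, ?_, fun _ => by linarith⟩
    rw [abs_of_nonpos h, abs_of_pos (by linarith)]
    ring

theorem cell (t₁ t₂ t₃ : ℝ) : ∃ (z₁ z₂ z₃ p : ℤ) (r₁ r₂ r₃ : ℝ), (p = 0 ∨ p = 1) ∧
    t₁ = 2 * z₁ + p + r₁ ∧ t₂ = 2 * z₂ + p + r₂ ∧ t₃ = 2 * z₃ + p + r₃ ∧
    |r₁| + |r₂| + |r₃| ≤ 3 / 2 ∧ (|r₁| + |r₂| + |r₃| = 3 / 2 → TwoPos r₁ r₂ r₃) := by
  obtain ⟨e₁, r₁, h₁, a₁, b₁⟩ := coord t₁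
  obtain ⟨e₂, r₂, h₂, a₂, b₂⟩ := coord t₂
  obtain ⟨e₃, r₃, h₃, a₃, b₃⟩ := coord t₃
  by_cases hk : |r₁| + |r₂| + |r₃| ≤ 3 / 2 ∧ (|r₁| + |r₂| + |r₃| = 3 / 2 → TwoPos r₁ r₂ r₃)
  · exact ⟨e₁, e₂, e₃, 0, r₁, r₂, r₃, Or.inl rfl, by rw [h₁]; simp, by rw [h₂]; simp,
      by rw [h₃]; simp, hk.1, hk.2⟩
  · obtain ⟨z₁, s₁, c₁, d₁, f₁⟩ := coord' e₁ r₁ a₁ b₁
    obtain ⟨z₂, s₂, c₂, d₂, f₂⟩ := coord' e₂ r₂ a₂ b₂
    obtain ⟨z₃, s₃, c₃, d₃, f₃⟩ := coord' e₃ r₃ a₃ b₃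
    have hS : 3 / 2 ≤ |r₁| + |r₂| + |r₃| := by
      by_contra hlt
      exact hk ⟨by linarith, fun h => absurd h (by intro h; linarith)⟩
    refine ⟨z₁, z₂, z₃, 1, s₁, s₂, s₃, Or.inr rfl, by rw [h₁, c₁]; simp, by rw [h₂, c₂]; simp,
      by rw [h₃, c₃]; simp, by linarith, fun hs => ?_⟩
    have hT : ¬ TwoPos r₁ r₂ r₃ := fun hT => hk ⟨by linarith, fun _ => hT⟩
    unfold TwoPos at hT ⊢
    by_cases g₁ : 0 < r₁
    · have g₂ : r₂ ≤ 0 := by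
        by_contra h
        exact hT (Or.inl ⟨g₁, not_le.1 h⟩)
      have g₃ : r₃ ≤ 0 := by
        by_contra h
        exact hT (Or.inr (Or.inl ⟨g₁, not_le.1 h⟩))
      exact Or.inr (Or.inr ⟨f₂ g₂, f₃ g₃⟩)
    · by_cases g₂ : 0 < r₂
      · have g₃ : r₃ ≤ 0 := by
          by_contra h
          exact hT (Or.inr (Or.inr ⟨g₂, not_le.1 h⟩))
        exact Or.inr (Or.inl ⟨f₁ (not_lt.1 g₁), f₃ g₃⟩)
      · exact Or.inl ⟨f₁ (not_lt.1 g₁), f₂ (not_lt.1 g₂)⟩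

theorem abs_diff (a b : ℝ) : |b - a| ≤ |a| + |b| := by
  have := abs_sub b a
  linarith

theorem abs_diff_lt (a b : ℝ) (ha : 0 < a) (hb : 0 < b) : |b - a| < |a| + |b| := by
  rw [abs_of_pos ha, abs_of_pos hb, abs_lt]
  constructor <;> linarith

/-- two residues are at distance less than `3` -/
theorem res_lt (r₁ r₂ r₃ s₁ s₂ s₃ : ℝ) (hr : |r₁| + |r₂| + |r₃| ≤ 3 / 2)
    (hr' : |r₁| + |r₂| + |r₃| = 3 / 2 → TwoPos r₁ r₂ r₃) (hs : |s₁| + |s₂| + |s₃| ≤ 3 / 2)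
    (hs' : |s₁| + |s₂| + |s₃| = 3 / 2 → TwoPos s₁ s₂ s₃) :
    |s₁ - r₁| + |s₂ - r₂| + |s₃ - r₃| < 3 := by
  have h₁ := abs_diff r₁ s₁
  have h₂ := abs_diff r₂ s₂
  have h₃ := abs_diff r₃ s₃
  by_contra hge
  have e₁ : |r₁| + |r₂| + |r₃| = 3 / 2 := by linarith
  have e₂ : |s₁| + |s₂| + |s₃| = 3 / 2 := by linarith
  rcases hr' e₁ with ⟨a, b⟩ | ⟨a, b⟩ | ⟨a, b⟩ <;> rcases hs' e₂ with ⟨c, d⟩ | ⟨c, d⟩ | ⟨c, d⟩
  · have := abs_diff_lt _ _ a c; linarith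
  · have := abs_diff_lt _ _ a c; linarith
  · have := abs_diff_lt _ _ b c; linarith
  · have := abs_diff_lt _ _ a c; linarith
  · have := abs_diff_lt _ _ a c; linarith
  · have := abs_diff_lt _ _ b d; linarith
  · have := abs_diff_lt _ _ a d; linarith
  · have := abs_diff_lt _ _ b d; linarith
  · have := abs_diff_lt _ _ a c; linarith

theorem kernel_check : ∀ q ∈ Finset.Icc (-1 : ℤ) 1, ∀ w₁ ∈ Finset.Icc (-3 : ℤ) 3,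
    ∀ w₂ ∈ Finset.Icc (-3 : ℤ) 3, ∀ w₃ ∈ Finset.Icc (-3 : ℤ) 3,
    |2 * w₁ + q| + |2 * w₂ + q| + |2 * w₃ + q| ≤ 5 → (3 * w₁ + 5 * w₂ + 8 * w₃ + q) % 14 = 0 →
    w₁ = 0 ∧ w₂ = 0 ∧ w₃ = 0 ∧ q = 0 := by decide

theorem kernel (w₁ w₂ w₃ q : ℤ) (hq : q = -1 ∨ q = 0 ∨ q = 1)
    (h : (3 * w₁ + 5 * w₂ + 8 * w₃ + q) % 14 = 0) :
    (w₁ = 0 ∧ w₂ = 0 ∧ w₃ = 0 ∧ q = 0) ∨ 6 ≤ |2 * w₁ + q| + |2 * w₂ + q| + |2 * w₃ + q| := by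
  by_cases h6 : 6 ≤ |2 * w₁ + q| + |2 * w₂ + q| + |2 * w₃ + q|
  · exact Or.inr h6
  · left
    have n₁ := abs_nonneg (2 * w₁ + q)
    have n₂ := abs_nonneg (2 * w₂ + q)
    have n₃ := abs_nonneg (2 * w₃ + q)
    have m₁ : |2 * w₁ + q| ≤ 5 := by omega
    have m₂ : |2 * w₂ + q| ≤ 5 := by omega
    have m₃ : |2 * w₃ + q| ≤ 5 := by omega
    rw [abs_le] at m₁ m₂ m₃
    refine kernel_check q ?_ w₁ ?_ w₂ ?_ w₃ ?_ (by omega) h <;>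
      rw [Finset.mem_Icc] <;> omega

/-- The unit-distance graph of `ℓ_1^3` has a proper colouring with `14` colours. -/
theorem result : ∃ c : (Fin 3 → ℝ) → Fin 14, ∀ x y : Fin 3 → ℝ, ∑ i, |x i - y i| = 1 →
    c x ≠ c y := by
  choose z₁ z₂ z₃ p r₁ r₂ r₃ hp h₁ h₂ h₃ hle htie using cell
  let n : (Fin 3 → ℝ) → ℤ := fun x =>
    3 * z₁ (3 * x 0) (3 * x 1) (3 * x 2) + 5 * z₂ (3 * x 0) (3 * x 1) (3 * x 2) +
      8 * z₃ (3 * x 0) (3 * x 1) (3 * x 2) + p (3 * x 0) (3 * x 1) (3 * x 2)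
  refine ⟨fun x => ⟨(n x % 14).toNat, by omega⟩, ?_⟩
  intro x y hxy hc
  have hc' : n y % 14 = n x % 14 := by
    have := congrArg Fin.val hc
    simp only at this
    omega
  simp only [n] at hc'
  rw [Fin.sum_univ_three] at hxy
  set x₁ := 3 * x 0 with hx₁
  set x₂ := 3 * x 1 with hx₂
  set x₃ := 3 * x 2 with hx₃
  set y₁ := 3 * y 0 with hy₁
  set y₂ := 3 * y 1 with hy₂
  set y₃ := 3 * y 2 with hy₃
  have hd : |x₁ - y₁| + |x₂ - y₂| + |x₃ - y₃| = 3 := by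
    rw [hx₁, hx₂, hx₃, hy₁, hy₂, hy₃, ← mul_sub, ← mul_sub, ← mul_sub, abs_mul, abs_mul, abs_mul]
    rw [abs_of_pos (by norm_num : (0 : ℝ) < 3)]
    linarith
  have hres := res_lt _ _ _ _ _ _ (hle y₁ y₂ y₃) (htie y₁ y₂ y₃) (hle x₁ x₂ x₃) (htie x₁ x₂ x₃)
  have k₁ := h₁ x₁ x₂ x₃
  have k₂ := h₂ x₁ x₂ x₃
  have k₃ := h₃ x₁ x₂ x₃
  have l₁ := h₁ y₁ y₂ y₃
  have l₂ := h₂ y₁ y₂ y₃
  have l₃ := h₃ y₁ y₂ y₃
  have px := hp x₁ x₂ x₃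
  have py := hp y₁ y₂ y₃
  generalize z₁ x₁ x₂ x₃ = a₁ at *
  generalize z₂ x₁ x₂ x₃ = a₂ at *
  generalize z₃ x₁ x₂ x₃ = a₃ at *
  generalize p x₁ x₂ x₃ = a at *
  generalize z₁ y₁ y₂ y₃ = b₁ at *
  generalize z₂ y₁ y₂ y₃ = b₂ at *
  generalize z₃ y₁ y₂ y₃ = b₃ at *
  generalize p y₁ y₂ y₃ = b at *
  generalize r₁ x₁ x₂ x₃ = u₁ at *
  generalize r₂ x₁ x₂ x₃ = u₂ at *
  generalize r₃ x₁ x₂ x₃ = u₃ at *
  generalize r₁ y₁ y₂ y₃ = v₁ at *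
  generalize r₂ y₁ y₂ y₃ = v₂ at *
  generalize r₃ y₁ y₂ y₃ = v₃ at *
  have e₁ : x₁ - y₁ = ((2 * (a₁ - b₁) + (a - b) : ℤ) : ℝ) + (u₁ - v₁) := by
    rw [k₁, l₁]; push_cast; ring
  have e₂ : x₂ - y₂ = ((2 * (a₂ - b₂) + (a - b) : ℤ) : ℝ) + (u₂ - v₂) := by
    rw [k₂, l₂]; push_cast; ring
  have e₃ : x₃ - y₃ = ((2 * (a₃ - b₃) + (a - b) : ℤ) : ℝ) + (u₃ - v₃) := by
    rw [k₃, l₃]; push_cast; ring
  rcases kernel (a₁ - b₁) (a₂ - b₂) (a₃ - b₃) (a - b) (by omega) (by omega) with hz | h6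
  · rw [hz.1, hz.2.2.2] at e₁
    rw [hz.2.1, hz.2.2.2] at e₂
    rw [hz.2.2.1, hz.2.2.2] at e₃
    simp only [mul_zero, add_zero, Int.cast_zero, zero_add] at e₁ e₂ e₃
    rw [e₁, e₂, e₃] at hd
    linarith
  · have h6' : (6 : ℝ) ≤ |((2 * (a₁ - b₁) + (a - b) : ℤ) : ℝ)| +
        |((2 * (a₂ - b₂) + (a - b) : ℤ) : ℝ)| + |((2 * (a₃ - b₃) + (a - b) : ℤ) : ℝ)| := by
      exact_mod_cast h6
    have g : ∀ D w s : ℝ, D = w + s → |w| - |s| ≤ |D| := by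
      intro D w s h
      rw [h]
      have := abs_sub_abs_le_abs_sub w (-s)
      rw [abs_neg, sub_neg_eq_add] at this
      exact this
    have g₁ := g _ _ _ e₁
    have g₂ := g _ _ _ e₂
    have g₃ := g _ _ _ e₃
    linarith

end Pool.Agent.Results.MP_4e279d_co.FourteenColours
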